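import Pool.Agent.H.MP_c4ee57_al.H

set_option autoImplicit false

namespace Pool.Agent.Results.MP_c4ee57_al.RatTrans

open Pool.Agent.H.MP_c4ee57_al

/-- There is a group with two finite generating sets, one with rational and one with transcendental
complete growth series (witness: the free group of rank two times the Klein bottle group). -/
theorem result : ∃ (G : Type) (_ : Group G) (S₁ S₂ : Finset G),
    Subgroup.closure (S₁ : Set G) = ⊤ ∧ Subgroup.closure (S₂ : Set G) = ⊤ ∧
    IsRationalSeries (CG S₁) ∧ ¬ IsAlgebraicSeries (CG S₂) :=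
  ⟨GG, inferInstance, S1, S2, S1_len.1, S2_top, S1_rat, S2_not_alg⟩

end Pool.Agent.Results.MP_c4ee57_al.RatTrans
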